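import Mathlib
import Pool.Agent.V11182.Multifuncoid

/-! The poset of completary multifuncoids of the form `(𝒫 ℕ)^ℕ` is not atomic. -/

namespace Pool.Agent.Results.MP_2da57a_co.NotAtomic

open Pool.Agent.V11182.Multifuncoid

/-- There are sets `U` and `n` and a completary multifuncoid `f` of the form `(𝒫 U)^n` which is
not the least one and has no atom below it. -/
theorem result : ∃ (U n : Type) (f : CM U n), f ≠ ⊥ ∧ ¬ ∃ a : CM U n, IsAtom a ∧ a ≤ f :=
  ⟨ℕ, ℕ, FF, FF_ne_bot, fun ⟨a, ha, hle⟩ => no_atom a ha hle⟩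

end Pool.Agent.Results.MP_2da57a_co.NotAtomic
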