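import Mathlib
import Pool.Agent.V11182.Multifuncoid

/-! The poset of completary multifuncoids of the form `(𝒫 ℕ)^ℕ` is not atomistic. -/

namespace Pool.Agent.Results.MP_2da57a_co.NotAtomistic

open Pool.Agent.V11182.Multifuncoid

/-- There are sets `U` and `n` and a completary multifuncoid `f` of the form `(𝒫 U)^n` which is
not the least upper bound of the set of atoms below it. -/
theorem result : ∃ (U n : Type) (f : CM U n), ¬ IsLUB {a : CM U n | IsAtom a ∧ a ≤ f} f := by
  refine ⟨ℕ, ℕ, FF, fun h => FF_ne_bot ?_⟩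
  have hbot : (⊥ : CM ℕ ℕ) ∈ upperBounds {a : CM ℕ ℕ | IsAtom a ∧ a ≤ FF} :=
    fun a ha => absurd ha.2 (no_atom a ha.1)
  exact le_antisymm (h.2 hbot) bot_le

end Pool.Agent.Results.MP_2da57a_co.NotAtomistic
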